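import Mathlib
import Pool.Agent.X213.Forms
import Pool.Agent.X213.Block

set_option autoImplicit false

/-!
# Segre's conjecture for the Weyl group orbits of the classes decided by blocks, clusters, doubling

The class `(d; w)` is `DecidedClass` (`Pool.Agent.X213.Block.DecidedClass`) if the multiset of its
multiplicities and `d` are in one of the two least relations `E = Decided false` (emptiness) and
`I = Decided true` (independence) which are closed under:
* blocks (`EmptyRange`, `IndepRange`): the multiset is (for `E`: contains) the sum of `r < K ^ 2`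
  multisets whose sums and sizes satisfy an inequality;
* clusters: a member `b` is replaced by the four numbers `⌊(2 b + j) / 4⌋`, `j = -1, 0, 1, 2`;
* doubling: `I` for `M + a {b}` and `E` for `M + a {b + 1}` in degree `d` decide the degree `d`
  for `M + a {⌊b / 2⌋, ⌊b / 2⌋, ⌊(b + 1) / 2⌋, ⌊(b + 1) / 2⌋}`;
* monotonicity.

At general points the linear system of every class in the Weyl group orbit of a standard class which
is `DecidedClass` is non-special. If the system of any class is special, then twice a `(-1)`-curve is a
fixed part of it, or, after the removal of disjoint `(-1)`-curves, each taken once, and finitely many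
quadratic transformations, it is a special standard class of the same dimension which is not `DecidedClass`.
-/

namespace Pool.Agent.Results.MP_cfebfb_ag.BlockForms

open MvPolynomial Pool.Agent.TH167.SHDefs
open Pool.Agent.Y536.SH (Standard)
open Pool.Agent.X213.Forms (ForGeneral Carries)
open Pool.Agent.X213.Block (DecidedClass)

theorem result (r d : ℕ) (w : Fin (r + 4) → ℕ) : ForGeneral fun P : Fin (r + 4) → Fin 2 → ℂ =>
    ((∃ (d' : ℕ) (w' : Fin (r + 4) → ℕ), Carries d w d' w' ∧ Standard d' w' ∧ DecidedClass d' w') →
      ¬ Special P d w) ∧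
    (Special P d w →
      (∃ (G : MvPolynomial (Fin 3) ℂ) (e : ℕ) (u : Fin (r + 4) → ℕ), MinusOne P G e u ∧
        inter d w e u ≤ -2 ∧ ∀ f ∈ sys P d w, G ^ 2 ∣ f) ∨
      ∃ (d'' : ℕ) (w'' : Fin (r + 4) → ℕ) (k : ℕ) (G : Fin k → MvPolynomial (Fin 3) ℂ)
        (e : Fin k → ℕ) (u : Fin k → Fin (r + 4) → ℕ) (d' : ℕ) (w' : Fin (r + 4) → ℕ),
        Decomp P d w d'' w'' G e u (fun _ => 1) ∧
        Relation.ReflTransGen Quadratic (d'', w'') (d', w') ∧ Standard d' w' ∧
        dimL P d' w' = dimL P d w ∧ Special P d' w' ∧ ¬ DecidedClass d' w') :=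
  Pool.Agent.X213.Forms.segre (Q := fun d' w' => DecidedClass d' w')
    (fun _ _ _ _ hP _ _ _ hG => Pool.Agent.X213.Block.exp_of_decided hG hP) d w

end Pool.Agent.Results.MP_cfebfb_ag.BlockForms
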