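import Mathlib
import Pool.Agent.X213.Forms
import Pool.Agent.X213.EngB

set_option autoImplicit false

/-!
# Segre's conjecture: conditions of order `m ^ 3` on the standard form

The class `(d; w)` is `Cubic` (`Pool.Agent.X213.EngB.Cubic`) if for some `1 ≤ k ≤ m` all `w i ≤ m`; for
every `i` with `w i > k` the points of smaller multiplicities (`≥ 2`, or `≥ 1` if `k = 1`) satisfy
`2 w i (w i + 1) (w i + 2) ≤ ∑ w j (w j + 1)` (no condition if `k = m`);
`m (m + 1) (m + 6 √m + 10) ≤ max ((d + 1) (d + 2)) A`, where `A = ∑ (w i + 1).choose 2`; and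
`|(d + 2).choose 2 - A| ≥ 2 (k + 1).choose 3` (where simple points need not be counted in `A` on the
side of independence), or no multiplicity lies strictly between `1` and `k`.

At general points the linear system of every class in the Weyl group orbit of a standard class which
is `Cubic` is non-special. If the system of any class is special, then twice a `(-1)`-curve is a
fixed part of it, or, after the removal of disjoint `(-1)`-curves, each taken once, and finitely many
quadratic transformations, it is a special standard class of the same dimension which is not `Cubic`.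
-/

namespace Pool.Agent.Results.MP_cfebfb_ag.CubicForms

open MvPolynomial Pool.Agent.TH167.SHDefs
open Pool.Agent.Y536.SH (Standard)
open Pool.Agent.X213.Forms (ForGeneral Carries)
open Pool.Agent.X213.EngB (Cubic)

theorem result (r d : ℕ) (w : Fin (r + 4) → ℕ) : ForGeneral fun P : Fin (r + 4) → Fin 2 → ℂ =>
    ((∃ (d' : ℕ) (w' : Fin (r + 4) → ℕ), Carries d w d' w' ∧ Standard d' w' ∧ Cubic d' w') →
      ¬ Special P d w) ∧
    (Special P d w →
      (∃ (G : MvPolynomial (Fin 3) ℂ) (e : ℕ) (u : Fin (r + 4) → ℕ), MinusOne P G e u ∧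
        inter d w e u ≤ -2 ∧ ∀ f ∈ sys P d w, G ^ 2 ∣ f) ∨
      ∃ (d'' : ℕ) (w'' : Fin (r + 4) → ℕ) (k : ℕ) (G : Fin k → MvPolynomial (Fin 3) ℂ)
        (e : Fin k → ℕ) (u : Fin k → Fin (r + 4) → ℕ) (d' : ℕ) (w' : Fin (r + 4) → ℕ),
        Decomp P d w d'' w'' G e u (fun _ => 1) ∧
        Relation.ReflTransGen Quadratic (d'', w'') (d', w') ∧ Standard d' w' ∧
        dimL P d' w' = dimL P d w ∧ Special P d' w' ∧ ¬ Cubic d' w') :=
  Pool.Agent.X213.Forms.segre (Q := fun d' w' => Cubic d' w')
    (fun _ _ _ _ hP _ _ _ hG => Pool.Agent.X213.EngB.cubic_exp hG hP) d w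

end Pool.Agent.Results.MP_cfebfb_ag.CubicForms
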