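import Mathlib
import Pool.Agent.X214.NV.Seg

set_option autoImplicit false

/-!
# Segre's conjecture for all classes with a near-uniform reduction

A class `(d, w)` (degree and multiplicities) is reduced by quadratic transformations and by removing
the lines through two of the points which meet it negatively. Let this lead to a class `(d1, w1)`
with the following property: there are a set `S` of at least `36` of the points, and a vector `v`
which takes only the values `m`, `m + 1` (`m ≥ 1` arbitrary) on `S`, such that `w1 ≤ v` on `S`,
`w1 ≤ 1` off `S`, and `w1 = v` on `S` or `∑ (v i + 1).choose 2 ≤ (d1 + 2).choose 2` (sum over `S`).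
Then a special system of class `(d, w)` at general points contains twice a `(-1)`-curve as a fixed
part; and it is not special if only quadratic transformations were used.
-/

namespace Pool.Agent.Results.MP_cfebfb_ag.NearUniformReductions

open MvPolynomial Pool.Agent.TH167.SHDefs Pool.Agent.X214.NV
open Pool.Agent.TH885.CO (LineStep)

theorem result : ∀ (s d d1 : ℕ) (w w1 : Fin s → ℕ), Dominated d1 w1 →
    Relation.ReflTransGen (fun a b => Quadratic a b ∨ LineStep a b) (d, w) (d1, w1) →
    ∃ F : MvPolynomial (Fin s × Fin 2) ℂ, F ≠ 0 ∧ ∀ P : Fin s → Fin 2 → ℂ,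
      eval (fun ij : Fin s × Fin 2 => P ij.1 ij.2) F ≠ 0 →
        (Special P d w → ∃ (G : MvPolynomial (Fin 3) ℂ) (e : ℕ) (u : Fin s → ℕ),
          MinusOne P G e u ∧ inter d w e u ≤ -2 ∧ ∀ f ∈ sys P d w, G ^ 2 ∣ f) ∧
        (Relation.ReflTransGen Quadratic (d, w) (d1, w1) → ¬ Special P d w) := by
  intro s d d1 w w1 hD h
  exact dom_segreC hD h

end Pool.Agent.Results.MP_cfebfb_ag.NearUniformReductions
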